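import Pool.Agent.H700Z.QL.Unit

set_option autoImplicit false
set_option linter.unusedSectionVars false
set_option linter.unusedVariables false

/-!
From the finite form with unitary matrices to unitary lifts whose centralizers give the relative
commutant.
-/

namespace Pool.Agent.H700Z.QL

open Matrix Finset Filter Topology Pool.Agent.H304Z.NH Pool.Agent.H494Z.QE
open Pool.Agent.H494Z.QEDefs Pool.Agent.H509Z.QE
open scoped MatrixOrder ComplexOrder

/-- the theorem with unitary lifts -/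
def S_LIFT : Prop :=
  ∀ (G : Type) [Group G] [Countable G], HasT G →
    ∀ S : Finset G, Subgroup.closure (S : Set G) = ⊤ → (∀ s ∈ S, s⁻¹ ∈ S) →
    ∀ U : Ultrafilter ℕ, (U : Filter ℕ) ≤ Filter.cofinite →
    ∀ d : ℕ → ℕ, (∀ k, 0 < d k) → ∀ π : G → Seq d, IsUnitaryHom U π →
    ∃ g : G → Seq d,
      (∀ s ∈ S, (∀ k, g s k ∈ Matrix.unitaryGroup (Fin (d k)) ℂ) ∧ Same U (g s) (π s)) ∧
      ∀ x : Seq d, Bdd x →
        ((∀ h, Same U (x * π h) (π h * x)) ↔
          ∃ a : Seq d, Bdd a ∧ (∀ k, ∀ s ∈ S, a k * g s k = g s k * a k) ∧ Same U x a)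

theorem lift_of (hF : S_FINU) : S_LIFT := by
  classical
  have hP : S_POL := Pool.Agent.H234Z.Pol.pol
  have hC : S_CLAMP := clamp
  intro G _ _ hT S hS hsym U hU d hd π hπ
  obtain ⟨S₀, ε₀, hε₀, hK⟩ := hT
  have hKaz : Kaz G (S ∪ S₀) := ⟨ε₀, hε₀, fun E _ _ _ ρ hρ ⟨v, hv, h⟩ =>
    hK E ρ hρ ⟨v, hv, fun s hs => h s (Finset.mem_union_right _ hs)⟩⟩
  obtain ⟨u, huU, hu1, huz, hdf⟩ := lifts hP hπ
  have hbu : ∀ g, Bd (u g) := fun g => bd_of_U (huU g)
  have hbπ : ∀ g, Bd (π g) := fun g => bd_of_bdd (hπ.1 g)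
  obtain ⟨C, hC0, hfin⟩ := hF G (S ∪ S₀) hKaz
  choose W δ hδ hW using fun m : ℕ => hfin (1 / ((m : ℝ) + 1)) (by positivity)
  have hdp : ∀ k, (0 : ℝ) < d k := fun k => by exact_mod_cast hd k
  let Good : ℕ → ℕ → Prop := fun m k => ∀ g ∈ W m, ∀ h ∈ W m,
    nsq (df (fun g => u g k) g h) ≤ δ m * Fintype.card (Fin (d k))
  have hG : ∀ m, ∀ᶠ k in (U : Filter ℕ), Good m k := by
    intro m
    refine (eventually_all_finset _).mpr fun g _ => (eventually_all_finset _).mpr fun h _ => ?_
    filter_upwards [(hdf g h).eventually (gt_mem_nhds (hδ m))] with k hk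
    rw [div_lt_iff₀ (hdp k)] at hk
    rw [Fintype.card_fin]
    exact hk.le
  let M : ℕ → ℕ := fun k => Nat.findGreatest (fun m => Good m k) k
  have hM : ∀ m, ∀ᶠ k in (U : Filter ℕ), m ≤ M k ∧ Good (M k) k := by
    intro m
    have h1 : ∀ᶠ k in (U : Filter ℕ), m ≤ k := by
      refine hU ?_
      rw [Nat.cofinite_eq_atTop]
      exact eventually_ge_atTop m
    filter_upwards [h1, hG m] with k hk hg
    exact ⟨Nat.le_findGreatest hk hg, Nat.findGreatest_spec (P := fun m => Good m k) hk hg⟩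
  have hMg : ∀ᶠ k in (U : Filter ℕ), Good (M k) k := (hM 0).mono fun k hk => hk.2
  have hε : Tendsto (fun k => 1 / ((M k : ℝ) + 1)) U (𝓝 0) :=
    tendsto_one_div_add_atTop_nhds_zero_nat.comp
      (tendsto_atTop.mpr fun m => (hM m).mono fun k hk => hk.1)
  have hv : ∀ k, ∃ v : G → Mat (Fin (d k)), (∀ s, IsU (v s)) ∧ (Good (M k) k →
      (∀ s ∈ S ∪ S₀, nsq (u s k - v s) ≤ 1 / ((M k : ℝ) + 1) * Fintype.card (Fin (d k))) ∧
      ∀ x : Mat (Fin (d k)), xᴴ * x ≤ 1 → ∃ a : Mat (Fin (d k)),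
        (∀ s ∈ S ∪ S₀, v s * a = a * v s ∧ (v s)ᴴ * a = a * (v s)ᴴ) ∧
        nsq (x - a) ≤ C * en (fun g => u g k) (S ∪ S₀) x +
          1 / ((M k : ℝ) + 1) * Fintype.card (Fin (d k))) := by
    intro k
    by_cases hg : Good (M k) k
    · obtain ⟨v, hvU, hv⟩ := hW (M k) (Fin (d k)) (fun g => u g k) (fun g => huU g k)
        (by rw [hu1]; rfl) hg
      exact ⟨v, hvU, fun _ => hv⟩
    · exact ⟨fun _ => 1, fun _ => ⟨by simp, by simp⟩, fun h => absurd h hg⟩
  choose v hvU hv using hv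
  have huv : ∀ s ∈ S, Z U (u s - fun k => v k s) := by
    intro s hs
    have hs' : s ∈ S ∪ S₀ := Finset.mem_union_left _ hs
    refine Z.of_le hε ?_
    filter_upwards [hMg] with k hk
    have := (hv k hk).1 s hs'
    rw [Fintype.card_fin] at this
    rw [div_le_iff₀ (hdp k)]
    exact this
  refine ⟨fun s k => v k s, fun s hs => ⟨fun k => ?_, ?_⟩,
    fun x hx => ⟨fun hcm => ?_, fun ⟨a, ha, haA, hxa⟩ => ?_⟩⟩
  · exact Matrix.mem_unitaryGroup_iff.mpr (hvU k s).2
  · rw [same_iff]
    refine ((huz s).add (huv s hs)).neg.of_eq ?_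
    abel
  · obtain ⟨c, hc, hcx⟩ := scale hx
    have hbx := bd_of_bdd hx
    have hcu : ∀ g, Z U (u g * x - x * u g) := by
      intro g
      refine ((((huz g).right hbx).neg.sub ((same_iff _ _).mp (hcm g))).add
        ((huz g).left hbx)).of_eq ?_
      noncomm_ring
    have hen : Tendsto (fun k => en (fun g => u g k) (S ∪ S₀) (c • x k) / (d k : ℝ)) U (𝓝 0) := by
      have h1 := tendsto_finsetSum (S ∪ S₀) fun s _ => (hcu s).const_mul (c ^ 2)
      simp only [mul_zero, Finset.sum_const_zero] at h1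
      refine h1.congr fun k => ?_
      rw [en, Finset.sum_div]
      refine Finset.sum_congr rfl fun s _ => ?_
      rw [cm_smul, nsq_smul, mul_div_assoc]
      rfl
    have hb : ∀ k, ∃ b ∈ StarSubalgebra.centralizer ℂ (v k '' ((S ∪ S₀ : Finset G) : Set G)),
        bᴴ * b ≤ (4 : ℝ) • (1 : Mat (Fin (d k))) ∧ (Good (M k) k →
          nsq (c • x k - b) ≤ 16 * (C * en (fun g => u g k) (S ∪ S₀) (c • x k) +
            1 / ((M k : ℝ) + 1) * d k)) := by
      intro k
      by_cases hg : Good (M k) k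
      · obtain ⟨a, ha1, ha2⟩ := (hv k hg).2 (c • x k) (hcx k)
        have haA : a ∈ StarSubalgebra.centralizer ℂ (v k '' ((S ∪ S₀ : Finset G) : Set G)) := by
          rw [StarSubalgebra.mem_centralizer_iff]
          rintro _ ⟨s, hs, rfl⟩
          exact ha1 s hs
        obtain ⟨b, hb1, hb2, hb3⟩ := hC (Fin (d k)) _ (c • x k) a (hcx k) haA
        rw [Fintype.card_fin] at ha2
        exact ⟨b, hb1, hb2, fun _ => by linarith⟩
      · refine ⟨0, zero_mem _, ?_, fun h => absurd h hg⟩
        rw [Matrix.mul_zero]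
        exact rsmul_nonneg (by norm_num) one_nonneg'
    choose b hbA hb4 hbn using hb
    refine ⟨fun k => c⁻¹ • b k, ⟨c⁻¹ * c⁻¹ * 4, fun k => ?_⟩, fun k s hs => ?_, ?_⟩
    · rw [← Matrix.nonneg_iff_posSemidef, sub_nonneg, rsmul_star, Matrix.smul_mul,
        Matrix.mul_smul, smul_smul, ← smul_smul (c⁻¹ * c⁻¹)]
      exact rsmul_le (by positivity) (hb4 k)
    · have h0 := rsmul_mem _ c⁻¹ (hbA k)
      rw [StarSubalgebra.mem_centralizer_iff] at h0
      exact (h0 (v k s) ⟨s, Finset.mem_coe.mpr (Finset.mem_union_left _ hs), rfl⟩).1.symm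
    · rw [same_iff]
      have h1 := (((hen.const_mul C).add hε).const_mul 16).const_mul (c⁻¹ ^ 2)
      simp only [mul_zero, add_zero] at h1
      refine Z.of_le h1 ?_
      filter_upwards [hMg] with k hk
      have e : (x - fun k => c⁻¹ • b k : Seq d) k = c⁻¹ • (c • x k - b k) := by
        rw [smul_sub, smul_smul, inv_mul_cancel₀ hc.ne', one_smul]
        rfl
      rw [e, nsq_smul, mul_div_assoc]
      refine mul_le_mul_of_nonneg_left ?_ (by positivity)
      rw [div_le_iff₀ (hdp k)]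
      have h2 := hbn k hk
      have h3 := hdp k
      have h4 : 16 * (C * (en (fun g => u g k) (S ∪ S₀) (c • x k) / (d k : ℝ)) +
          1 / ((M k : ℝ) + 1)) * d k = 16 * (C * en (fun g => u g k) (S ∪ S₀) (c • x k) +
            1 / ((M k : ℝ) + 1) * d k) := by
        field_simp
      rw [h4]
      exact h2
  · have hba := bd_of_bdd ha
    have hbx := bd_of_bdd hx
    have hxa' := (same_iff _ _).mp hxa
    have hgen : ∀ s ∈ S, Z U (x * u s - u s * x) := by
      intro s hs
      have huv := huv s hs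
      have hcv : a * (fun k => v k s) = (fun k => v k s) * a := by
        funext k
        exact haA k s hs
      refine ((((hxa'.right (hbu s)).add (huv.left hba)).sub (huv.right hba)).sub
        (hxa'.left (hbu s))).of_eq ?_
      rw [mul_sub a, hcv]
      noncomm_ring
    have hall : ∀ g, Z U (x * u g - u g * x) := by
      intro g
      have hg : g ∈ Subgroup.closure (S : Set G) := hS ▸ Subgroup.mem_top g
      induction hg using Subgroup.closure_induction'' with
      | mem s hs => exact hgen s hs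
      | inv_mem s hs => exact hgen _ (hsym s hs)
      | one => exact Z.zero.of_eq (by rw [hu1, mul_one, one_mul, sub_self])
      | mul g h _ _ hg hh =>
        refine (((((hdf g h).left hbx).neg.add (hg.right (hbu h))).add (hh.left (hbu g))).add
          ((hdf g h).right hbx)).of_eq ?_
        noncomm_ring
    intro g
    rw [same_iff]
    refine ((((huz g).left hbx).add (hall g)).sub ((huz g).right hbx)).of_eq ?_
    noncomm_ring

end Pool.Agent.H700Z.QL
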