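import Pool.Agent.H509Z.QE.Ult
import Pool.Agent.H234Z.Pol

set_option autoImplicit false
set_option linter.unusedSectionVars false
set_option linter.unusedVariables false

/-!
A matrix close to a unitary is close to a unitary in its own bicommutant.
-/

namespace Pool.Agent.H700Z.QL

open Matrix Finset Pool.Agent.H304Z.NH Pool.Agent.H494Z.QE
open scoped MatrixOrder ComplexOrder

variable {n : Type} [Fintype n] [DecidableEq n]

theorem exists_shift (v : Mat n) (δ : ℝ) (hδ : 0 < δ) :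
    ∃ l : ℝ, 0 < l ∧ l < δ ∧ IsUnit (v + l • (1 : Mat n)) := by
  have hfin : (spectrum ℂ v).Finite := Matrix.finite_spectrum v
  have hinj : Function.Injective (fun l : ℝ => (-(l : ℂ))) := by
    intro a b h
    have : (a : ℂ) = b := neg_injective h
    exact_mod_cast this
  have h1 : ((fun l : ℝ => (-(l : ℂ))) ⁻¹' spectrum ℂ v).Finite := hfin.preimage hinj.injOn
  have h2 : (Set.Ioo (0 : ℝ) δ).Infinite := Set.Ioo_infinite hδ
  obtain ⟨l, hl, hl'⟩ := h2.exists_notMem_finite h1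
  refine ⟨l, hl.1, hl.2, ?_⟩
  have h3 : IsUnit (algebraMap ℂ (Mat n) (-(l : ℂ)) - v) := by
    have := spectrum.notMem_iff.mp hl'
    exact this
  have e : v + l • (1 : Mat n) = -(algebraMap ℂ (Mat n) (-(l : ℂ)) - v) := by
    rw [Algebra.algebraMap_eq_smul_one, neg_smul, neg_sub, sub_neg_eq_add]
    congr 1
  rw [e]
  exact h3.neg

theorem comm_of_sq {z a : Mat n} (hz : 0 ≤ z) (h : z * z * a = a * (z * z)) : z * a = a * z := by
  have h1 : Commute (z * z) a := h
  have h2 : CFC.sqrt (z * z) = z := CFC.sqrt_mul_self z hz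
  have h3 : Commute (CFC.sqrt (z * z)) a := by
    rw [CFC.sqrt_eq_cfc]
    exact h1.cfc_nnreal _
  rw [h2] at h3
  exact h3

theorem tr_mul_U_le {z t : Mat n} (hz : 0 ≤ z) (ht : IsU t) : tr (z * t) ≤ tr z := by
  have h1 := tr_mul_nonneg hz (mul_star_nonneg (1 - t))
  have e : z * ((1 - t) * (1 - t)ᴴ) = z - z * tᴴ - z * t + z * (t * tᴴ) := by
    rw [conjTranspose_sub, conjTranspose_one]
    noncomm_ring
  rw [e, ht.2, Matrix.mul_one, tr_add, tr_sub, tr_sub] at h1
  have h2 : tr (z * tᴴ) = tr (z * t) := by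
    rw [← tr_star, conjTranspose_mul, conjTranspose_conjTranspose, herm hz, tr_comm]
  linarith

theorem nsq_U {u : Mat n} (hu : IsU u) : nsq u = Fintype.card n := by
  rw [nsq_eq, hu.1, tr_one]

theorem unit_near (v u : Mat n) (hu : IsU u) (η : ℝ) (hη : 0 < η) :
    ∃ w : Mat n, IsU w ∧ (∀ a : Mat n, v * a = a * v → vᴴ * a = a * vᴴ → w * a = a * w) ∧
      nsq (u - w) ≤ 8 * nsq (u - v) + η * Fintype.card n := by
  obtain ⟨l, hl0, hl1, hunit⟩ := exists_shift v (min 1 (η / 8)) (by positivity)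
  set y : Mat n := v + l • (1 : Mat n) with hy
  obtain ⟨w, z, -, hw, hz, -, hyz, -⟩ := Pool.Agent.H234Z.Pol.pol n 1 1 y isProj_one isProj_one
    le_rfl (Matrix.one_mul _) (Matrix.mul_one _)
  have hwU : IsU w := ⟨hw, mul_eq_one_comm.mp hw⟩
  have hzz : yᴴ * y = z * z := by
    rw [hyz, conjTranspose_mul, herm hz, Matrix.mul_assoc, ← Matrix.mul_assoc wᴴ, hw,
      Matrix.one_mul]
  have hzu : IsUnit z := by
    have e : z = wᴴ * y := by rw [hyz, ← Matrix.mul_assoc, hw, Matrix.one_mul]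
    rw [e]
    exact (IsUnit.of_mul_eq_one w hw).mul hunit
  refine ⟨w, hwU, fun a h1 h2 => ?_, ?_⟩
  · have k1 : y * a = a * y := by
      rw [hy, Matrix.add_mul, Matrix.mul_add, h1, Matrix.smul_mul, Matrix.mul_smul,
        Matrix.one_mul, Matrix.mul_one]
    have k2 : yᴴ * a = a * yᴴ := by
      rw [hy, conjTranspose_add, rsmul_star, conjTranspose_one, Matrix.add_mul, Matrix.mul_add, h2,
        Matrix.smul_mul, Matrix.mul_smul, Matrix.one_mul, Matrix.mul_one]
    have k3 : z * z * a = a * (z * z) := by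
      rw [← hzz, Matrix.mul_assoc, k1, ← Matrix.mul_assoc, k2, Matrix.mul_assoc]
    have k4 := comm_of_sq hz k3
    have k5 : w * a * z = a * w * z := by
      rw [Matrix.mul_assoc, ← k4, ← Matrix.mul_assoc, ← hyz, k1, Matrix.mul_assoc, ← hyz]
    exact hzu.mul_right_cancel k5
  · have d1 : nsq (y - w) ≤ nsq (y - u) := by
      rw [nsq_sub, nsq_sub, nsq_U hwU, nsq_U hu]
      have e1 : tr (yᴴ * w) = tr z := by
        rw [hyz, conjTranspose_mul, herm hz, Matrix.mul_assoc, hw, Matrix.mul_one]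
      have e2 : tr (yᴴ * u) ≤ tr z := by
        rw [hyz, conjTranspose_mul, herm hz, Matrix.mul_assoc]
        exact tr_mul_U_le hz (hwU.star.mul hu)
      linarith
    have d2 : nsq (u - w) ≤ 2 * nsq (u - y) + 2 * nsq (y - w) := by
      have := nsq_add_le (u - y) (y - w)
      rwa [sub_add_sub_cancel] at this
    have d3 : nsq (u - y) ≤ 2 * nsq (u - v) + 2 * (l ^ 2 * Fintype.card n) := by
      have := nsq_sub_le (u - v) (l • (1 : Mat n))
      rw [nsq_smul, nsq_U (u := (1 : Mat n)) ⟨by simp, by simp⟩] at this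
      have e : u - y = u - v - l • (1 : Mat n) := by rw [hy]; abel
      rw [e]; exact this
    rw [nsq_sub_comm y u] at d1
    have hl2 : l < 1 := hl1.trans_le (min_le_left _ _)
    have hl3 : l < η / 8 := hl1.trans_le (min_le_right _ _)
    have hc : (0 : ℝ) ≤ Fintype.card n := Nat.cast_nonneg _
    have d4 : 8 * (l ^ 2 * Fintype.card n) ≤ η * Fintype.card n := by
      have : 8 * l ^ 2 ≤ η := by nlinarith
      nlinarith
    linarith

/-- the finite form of the theorem with unitary matrices -/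
def S_FINU : Prop :=
  ∀ (G : Type) [Group G] (S : Finset G), Kaz G S →
    ∃ C : ℝ, 0 ≤ C ∧ ∀ ε : ℝ, 0 < ε → ∃ (W : Finset G) (δ : ℝ), 0 < δ ∧
      ∀ (n : Type) [Fintype n] [DecidableEq n] (u : G → Mat n), (∀ g, IsU (u g)) → u 1 = 1 →
        (∀ g ∈ W, ∀ h ∈ W, nsq (df u g h) ≤ δ * Fintype.card n) →
        ∃ v : G → Mat n, (∀ s, IsU (v s)) ∧ (∀ s ∈ S, nsq (u s - v s) ≤ ε * Fintype.card n) ∧
          ∀ x : Mat n, xᴴ * x ≤ 1 →
            ∃ a : Mat n, (∀ s ∈ S, v s * a = a * v s ∧ (v s)ᴴ * a = a * (v s)ᴴ) ∧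
              nsq (x - a) ≤ C * en u S x + ε * Fintype.card n

theorem finU (hF : S_FIN) : S_FINU := by
  intro G _ S hK
  obtain ⟨C, hC, h⟩ := hF G S hK
  refine ⟨C, hC, fun ε hε => ?_⟩
  obtain ⟨W, δ, hδ, h⟩ := h (ε / 16) (by positivity)
  refine ⟨W, δ, hδ, fun n _ _ u hu hu1 hdf => ?_⟩
  obtain ⟨v, hv1, hv2⟩ := h n u hu hu1 hdf
  choose w hwU hwc hwn using fun s => unit_near (v s) (u s) (hu s) (ε / 2) (by positivity)
  have hc : (0 : ℝ) ≤ Fintype.card n := Nat.cast_nonneg _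
  refine ⟨w, hwU, fun s hs => ?_, fun x hx => ?_⟩
  · have h1 := hwn s
    have h2 := hv1 s hs
    linarith
  · obtain ⟨a, ha1, ha2⟩ := hv2 x hx
    refine ⟨a, fun s hs => ?_, ?_⟩
    · have h1 := hwc s a (ha1 s hs).1 (ha1 s hs).2
      refine ⟨h1, ?_⟩
      calc (w s)ᴴ * a = (w s)ᴴ * a * (w s * (w s)ᴴ) := by rw [(hwU s).2, Matrix.mul_one]
        _ = (w s)ᴴ * (a * w s) * (w s)ᴴ := by simp only [Matrix.mul_assoc]
        _ = ((w s)ᴴ * w s) * a * (w s)ᴴ := by rw [← h1]; simp only [Matrix.mul_assoc]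
        _ = a * (w s)ᴴ := by rw [(hwU s).1, Matrix.one_mul]
    · have : ε / 16 * (Fintype.card n : ℝ) ≤ ε * Fintype.card n := by nlinarith
      linarith

end Pool.Agent.H700Z.QL
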